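import Pool.Agent.Helper49.TP.StW

/-!
# Project TP (MP_953b28_co), module VSW: random subset of one class, with weights
-/

set_option autoImplicit false

namespace Pool.Agent.Helper28.TP

open Finset Pool.Agent.Helper49.TP Pool.Agent.Helper93.IA Pool.Agent.Helper17.IA

private theorem vsw_sum {n : ℕ} (S : Finset (Fin n)) (f : Fin n → ℝ) (U' : Finset S) :
    ∑ x ∈ U', f (x : Fin n) = ∑ x ∈ U'.map (Function.Embedding.subtype fun x => x ∈ S), f x := by
  rw [Finset.sum_map]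
  rfl

private theorem vsw_univ {n : ℕ} (S : Finset (Fin n)) (f : Fin n → ℝ) :
    ∑ x : S, f (x : Fin n) = ∑ x ∈ S, f x := Finset.sum_coe_sort S f

private theorem vsw_m2 {n : ℕ} (G : Finset (Fin n × Fin n)) (U : Finset (Fin n)) (t : Fin n) :
    (m2 G U t : ℝ) = ∑ x ∈ U, (if (x, t) ∉ G then (1 : ℝ) else 0) := by
  rw [m2, Finset.natCast_card_filter]

private theorem vsw_m1 {n : ℕ} (G : Finset (Fin n × Fin n)) (U : Finset (Fin n)) (t : Fin n) :
    (m1 G U t : ℝ) = ∑ x ∈ U, (if (t, x) ∉ G then (1 : ℝ) else 0) := by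
  rw [m1, Finset.natCast_card_filter]

theorem hVSW : StVSW := by
  intro hsub ξ h1 h2
  obtain ⟨n0, h0⟩ := hsub ξ h1 h2
  refine ⟨max n0 1, ?_⟩
  intro n s G H Y Λ S T1 T2 hs hS hT1 hT2 hΛ hY
  have hs0 : n0 ≤ s := le_trans (le_max_left _ _) hs
  have hs1 : 1 ≤ s := le_trans (le_max_right _ _) hs
  have hΛ0 : 0 < Λ := by linarith
  obtain ⟨U', hU1, hU2⟩ := h0 S (T1 ⊕ (T2 ⊕ (T1 × T2))) s hs0 (by rw [Fintype.card_coe, hS])
    (by
      rw [Fintype.card_sum, Fintype.card_sum, Fintype.card_prod, Fintype.card_coe,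
        Fintype.card_coe, hT1, hT2]
      nlinarith)
    (fun j => Sum.elim (fun (t : T1) (x : S) =>
        if ((x : Fin n), (t : Fin n)) ∉ G then (1 : ℝ) else 0)
      (fun k => Sum.elim (fun (t : T2) (x : S) =>
        if ((t : Fin n), (x : Fin n)) ∉ H then (1 : ℝ) else 0)
      (fun (t : T1 × T2) (x : S) => Y t.1 t.2 x / Λ) k) j)
    (by
      rintro (t | t | t) v
      · simp only [Sum.elim_inl]
        split_ifs <;> norm_num
      · simp only [Sum.elim_inl, Sum.elim_inr]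
        split_ifs <;> norm_num
      · simp only [Sum.elim_inr]
        exact ⟨div_nonneg (hY _ _ _).1 hΛ0.le, (div_le_one hΛ0).mpr (hY _ _ _).2⟩)
  refine ⟨U'.map (Function.Embedding.subtype fun x => x ∈ S), ?_, ?_, ?_, ?_, ?_⟩
  · intro x hx
    rw [mem_map] at hx
    obtain ⟨y, -, rfl⟩ := hx
    exact y.2
  · rw [card_map, hU1]
  · intro t ht
    have h := hU2 (Sum.inl ⟨t, ht⟩)
    simp only [Sum.elim_inl] at h
    rw [vsw_sum S (fun x => if (x, t) ∉ G then (1 : ℝ) else 0),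
      vsw_univ S (fun x => if (x, t) ∉ G then (1 : ℝ) else 0), ← vsw_m2, ← vsw_m2] at h
    rw [card_map]
    exact h
  · intro t ht
    have h := hU2 (Sum.inr (Sum.inl ⟨t, ht⟩))
    simp only [Sum.elim_inr, Sum.elim_inl] at h
    rw [vsw_sum S (fun x => if (t, x) ∉ H then (1 : ℝ) else 0),
      vsw_univ S (fun x => if (t, x) ∉ H then (1 : ℝ) else 0), ← vsw_m1, ← vsw_m1] at h
    rw [card_map]
    exact h
  · intro t1 ht1 t2 ht2
    have h := hU2 (Sum.inr (Sum.inr (⟨t1, ht1⟩, ⟨t2, ht2⟩)))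
    simp only [Sum.elim_inr] at h
    rw [vsw_sum S (fun x => Y t1 t2 x / Λ), vsw_univ S (fun x => Y t1 t2 x / Λ),
      ← Finset.sum_div, ← Finset.sum_div] at h
    rw [card_map]
    have e : ∑ v ∈ U'.map (Function.Embedding.subtype fun x => x ∈ S), Y t1 t2 v -
        (∑ v ∈ S, Y t1 t2 v) * (U'.card : ℝ) / s =
        Λ * ((∑ v ∈ U'.map (Function.Embedding.subtype fun x => x ∈ S), Y t1 t2 v) / Λ -
          (∑ v ∈ S, Y t1 t2 v) / Λ * (U'.card : ℝ) / s) := by
      field_simp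
    rw [e, abs_mul, abs_of_pos hΛ0]
    exact mul_le_mul_of_nonneg_left h hΛ0.le

end Pool.Agent.Helper28.TP
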